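import Mathlib
import Pool.Agent.H1.SharpD

set_option autoImplicit false

theorem Pool.Agent.Results.MP_0bb3d8_nt.NoEuler.result :
    ∀ d : ℝ, 4 ≤ d →
      ∃ (F Φ : ℂ → ℂ) (a : ℕ → ℂ) (Q lam : ℝ) (mu : ℂ),
        a 1 = 1 ∧ (∃ C : ℝ, ∀ n : ℕ, ‖a n‖ ≤ C) ∧
        (∀ s : ℂ, 1 < s.re → LSeriesSummable a s ∧ F s = LSeries a s) ∧
        Differentiable ℂ F ∧
        (∃ ρ C : ℝ, ∀ s : ℂ, ‖F s‖ ≤ C * Real.exp (‖s‖ ^ ρ)) ∧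
        0 < Q ∧ 0 < lam ∧ 0 ≤ mu.re ∧ 2 * lam = d ∧
        Differentiable ℂ Φ ∧
        (∀ s : ℂ, (∀ m : ℕ, (lam : ℂ) * s + mu ≠ -(m : ℂ)) →
          Φ s = F s * (Q : ℂ) ^ s * Complex.Gamma ((lam : ℂ) * s + mu)) ∧
        ∀ s : ℂ, Φ s = starRingEnd ℂ (Φ (1 - starRingEnd ℂ s)) := by
  intro d hd
  obtain ⟨F, Φ, a, mu, h0, h1, h2, h3, -, h5, h6, -, ⟨C, h8⟩, h9, h10⟩ :=
    Pool.Agent.H1.Sharp.exists_F (lam := d / 2) (by linarith)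
  exact ⟨F, Φ, a, (6 : ℝ) ^ (d / 2), d / 2, mu, h1, h6 (by linarith), h5, h2, ⟨4, C, h8⟩,
    by positivity, by linarith, by simpa using h0, by ring, h3,
    fun s hs => by rw [h9 s hs]; ring, h10⟩
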